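import Mathlib
import Pool.Agent.Lib.MP_34b234_co.Defs
import Pool.Agent.Lib.MP_34b234_co.ApCount

set_option autoImplicit false

namespace Pool.Agent.Results.MP_34b234_co.Count

open Pool.Agent.Lib.MP_34b234_co

/-- The number of Costas permutations of order `n` is subexponential. -/
theorem result : ∃ C : ℝ, ∀ n : ℕ, 3 ≤ n →
    ({f : Equiv.Perm (Fin n) | IsCostas f}.ncard : ℝ) ≤
      Real.exp (C * (n : ℝ) ^ (6 / 7 : ℝ) * Real.log n ^ 3) :=
  Ap.count_main

/-- One set of at most `n / q` positions determines every Costas permutation of order `n` up to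
`O(q n^(6/7) (log n)^3)` values. -/
theorem approximate_degrees_of_freedom : ∃ C : ℝ, ∀ n q : ℕ, 3 ≤ n → 1 ≤ q →
    ∃ S : Finset (Fin n), S.card * q ≤ n ∧
      ∀ f g : Equiv.Perm (Fin n), IsCostas f → IsCostas g → (∀ i ∈ S, f i = g i) →
        ((Finset.univ.filter fun i => f i ≠ g i).card : ℝ) ≤
          C * q * (n : ℝ) ^ (6 / 7 : ℝ) * Real.log n ^ 3 :=
  Ap.approx_main

end Pool.Agent.Results.MP_34b234_co.Count
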