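import Pool.Agent.Lib.MP_34b234_co.Defs
import Pool.Agent.Lib.MP_34b234_co.Main
import Pool.Agent.Lib.MP_34b234_co.All

set_option autoImplicit false

namespace Pool.Agent.Results.MP_34b234_co.DofGeFour

open Pool.Agent.Lib.MP_34b234_co

theorem result : 4 ≤ dof 8190 := four_le_dof all_rows

end Pool.Agent.Results.MP_34b234_co.DofGeFour
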