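import Pool.Agent.Lib.MP_34b234_co.InMain

namespace Pool.Agent.Results.MP_34b234_co.Initial

open Pool.Agent.Lib.MP_34b234_co

/-- Over every large finite field with `q = n + 2 ≡ 1 (mod 4)` elements, any set `S` of positions
among the first `D` with `2^|S| |S| D ≤ q^(1/2-ε)` is a set on which two distinct Golomb
permutations agree. -/
theorem result (ε : ℝ) (hε : 0 < ε) : ∃ N : ℕ, ∀ (F : Type) [Field F] [Fintype F] (n : ℕ),
    Fintype.card F = n + 2 → (n + 2) % 4 = 1 → N ≤ n → ∀ (D : ℕ) (S : Finset (Fin n)),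
    (∀ i ∈ S, (i : ℕ) < D) → (2 : ℝ) ^ S.card * S.card * D ≤ ((n + 2 : ℕ) : ℝ) ^ (1 / 2 - ε) →
    ∃ f g : Equiv.Perm (Fin n), f ≠ g ∧ IsGolomb F f ∧ IsGolomb F g ∧ IsCostas f ∧ IsCostas g ∧
      ∀ i ∈ S, f i = g i :=
  Ty.initial hε

end Pool.Agent.Results.MP_34b234_co.Initial
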