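import Pool.Agent.Lib.MP_34b234_co.TyMain

namespace Pool.Agent.Results.MP_34b234_co.Typical

open Pool.Agent.Lib.MP_34b234_co

/-- For prime powers `q ≡ 1 (mod 4)` and order `n = q - 2`, the share of `k`-element sets of
positions that determine Costas permutations is at most `C log q · 2^(k/2) / q^(1/4)`. -/
theorem result : ∃ C : ℝ, ∀ q k : ℕ, IsPrimePow q → q % 4 = 1 →
    ({S : Finset (Fin (q - 2)) | S.card = k ∧ Determines S}.ncard : ℝ) ≤
      C * Real.log q * Real.sqrt (2 ^ k) / (q : ℝ) ^ (1 / 4 : ℝ) * (q - 2).choose k :=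
  ⟨2 ^ 24, Ty.typical⟩

end Pool.Agent.Results.MP_34b234_co.Typical
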